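import Pool.Agent.W558.WT.Stms

set_option autoImplicit false
set_option linter.unusedVariables false
set_option linter.unusedSectionVars false

universe u

open Polynomial AlgebraicGeometry CategoryTheory Pool.Agent.H920R2

namespace Pool.Agent.W33.WT.Pas

open Pool.Agent.W558

lemma zpow_mem' {k N : Type u} [Field k] [Field N] [Algebra k N] (A : Subalgebra k N) {a : N}
    (ha : a ∈ A) {n : ℤ} (hn : 0 ≤ n) : a ^ n ∈ A := by
  obtain ⟨m, rfl⟩ := Int.eq_ofNat_of_zero_le hn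
  rw [zpow_natCast]
  exact pow_mem ha m

lemma sum_c {κ : Type u} [Field κ] (p : ℕ) [CharP κ p] {I I0 : Type} [Fintype I] [Fintype I0]
    (Θ : I → I0 → ℤ) (n0 : I0 → ℤ) (c μ : I → ℤ) (hc : ∀ i, c i = ∑ i0, Θ i i0 * n0 i0 - p * μ i)
    (e : I → κ) :
    ∑ i, (c i : κ) * e i = ∑ i0, (n0 i0 : κ) * ∑ i, (Θ i i0 : κ) * e i := by
  have h1 : ∀ i, (c i : κ) = ∑ i0, (Θ i i0 : κ) * (n0 i0 : κ) := by
    intro i
    rw [hc i]
    push_cast
    rw [CharP.cast_eq_zero, zero_mul, sub_zero]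
  simp only [h1, Finset.sum_mul, Finset.mul_sum]
  rw [Finset.sum_comm]
  refine Finset.sum_congr rfl fun i0 _ => Finset.sum_congr rfl fun i _ => ?_
  ring

theorem main : WT_pas.{u} := by
  intro p _ k L N _ _ _ _ _ _ _ _ T0 I0 T I _ _ B f n0 a0 h0 M F Q y c μ hN hX
  classical
  obtain ⟨π, Θ, hP⟩ := hX
  have hfB : ∀ t i0, (if n0 i0 < 0 then B.x (π t) i0 else 1) ∈ B.A (π t) := by
    intro t i0
    split_ifs
    · exact B.xA _ _
    · exact Subalgebra.one_mem _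
  have hρB : ∀ t, (∏ i0, (if n0 i0 < 0 then B.x (π t) i0 else 1)) ∈ B.A (π t) :=
    fun t => Subalgebra.prod_mem _ fun i0 _ => hfB t i0
  have hhA : ∀ t, algebraMap L N (h0 (π t)) ∈ M.A t := fun t => hP.ov.le t _ (hN.hA (π t))
  have hrA : ∀ t, algebraMap L N (∏ i0, (if n0 i0 < 0 then B.x (π t) i0 else 1)) ∈ M.A t :=
    fun t => hP.ov.le t _ (hρB t)
  refine ⟨fun t => algebraMap L N (h0 (π t)),
    fun t => algebraMap L N (∏ i0, (if n0 i0 < 0 then B.x (π t) i0 else 1)),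
    ⟨hP.yA, hP.y0, hhA, hrA, hP.AQ, hP.xQ, hP.yQ, hP.m0, hP.cp, hP.cm, hP.eq, hP.snc,
      ?_, ?_, ?_, ?_⟩⟩
  · -- ri
    intro t κ _ _ φ i hi hφ
    have hnot : (M.x t i)⁻¹ ∉ M.A t := by
      intro hinv
      have h1 : φ (⟨M.x t i, M.xA t i⟩ * ⟨(M.x t i)⁻¹, hinv⟩) = φ 1 := by
        congr 1
        exact Subtype.ext (mul_inv_cancel₀ (M.x0 t i))
      rw [map_mul, hφ, zero_mul, map_one] at h1
      exact zero_ne_one h1
    rcases hP.ri t i hnot hi with ⟨i0, hn, hΘ⟩ | h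
    · left
      have hxi0 : algebraMap L N (B.x (π t) i0) =
          M.x t i * (M.x t i ^ (Θ i i0 - 1) *
            ∏ i' ∈ Finset.univ.erase i, M.x t i' ^ Θ i' i0) := by
        rw [hP.ov.x t i0, ← Finset.mul_prod_erase Finset.univ _ (Finset.mem_univ i), ← mul_assoc]
        congr 1
        nth_rewrite 2 [← zpow_one (M.x t i)]
        rw [← zpow_add₀ (M.x0 t i)]
        congr 1
        ring
      have hmem : M.x t i ^ (Θ i i0 - 1) * ∏ i' ∈ Finset.univ.erase i, M.x t i' ^ Θ i' i0 ∈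
          M.A t := by
        refine Subalgebra.mul_mem _ (zpow_mem' _ (M.xA t i) (by omega)) ?_
        exact Subalgebra.prod_mem _ fun i' _ => zpow_mem' _ (M.xA t i') (hP.ov.Θ0 i' i0)
      have hmem2 : algebraMap L N
          (∏ j ∈ Finset.univ.erase i0, (if n0 j < 0 then B.x (π t) j else 1)) ∈ M.A t :=
        hP.ov.le t _ (Subalgebra.prod_mem _ fun j _ => hfB t j)
      have e : (⟨algebraMap L N (∏ i0, (if n0 i0 < 0 then B.x (π t) i0 else 1)), hrA t⟩ : M.A t) =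
          ⟨M.x t i, M.xA t i⟩ * (⟨_, hmem⟩ * ⟨_, hmem2⟩) := by
        apply Subtype.ext
        change algebraMap L N (∏ i0, (if n0 i0 < 0 then B.x (π t) i0 else 1)) =
          M.x t i * ((M.x t i ^ (Θ i i0 - 1) *
            ∏ i' ∈ Finset.univ.erase i, M.x t i' ^ Θ i' i0) * algebraMap L N
          (∏ j ∈ Finset.univ.erase i0, (if n0 j < 0 then B.x (π t) j else 1)))
        rw [← mul_assoc, ← hxi0, ← map_mul]
        congr 1
        rw [← Finset.mul_prod_erase Finset.univ _ (Finset.mem_univ i0), if_pos hn]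
      refine (congrArg φ e).trans ?_
      rw [map_mul]
      exact mul_eq_zero_of_left hφ _
    · exact Or.inr h
  · -- ln
    intro t κ _ _ φ hφ
    have hcK : CharP κ p := charP_of_injective_algebraMap (algebraMap k κ).injective p
    have hφ1 : ∏ i0, (φ.comp (ci (hP.ov.le t)))
        ⟨if n0 i0 < 0 then B.x (π t) i0 else 1, hfB t i0⟩ = 0 := by
      rw [← map_prod]
      refine Eq.trans (congrArg (φ.comp (ci (hP.ov.le t))) ?_)
        (show (φ.comp (ci (hP.ov.le t))) ⟨_, hρB t⟩ = 0 from hφ)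
      apply Subtype.ext
      exact map_prod (B.A (π t)).val _ _
    obtain ⟨i0, _, hi⟩ := Finset.prod_eq_zero_iff.1 hφ1
    have hni : n0 i0 < 0 := by
      by_contra hcon
      have e : (⟨if n0 i0 < 0 then B.x (π t) i0 else 1, hfB t i0⟩ : B.A (π t)) = 1 :=
        Subtype.ext (if_neg hcon)
      rw [e, map_one] at hi
      exact one_ne_zero hi
    have hxi : (φ.comp (ci (hP.ov.le t))) ⟨B.x (π t) i0, B.xA (π t) i0⟩ = 0 := by
      refine Eq.trans (congrArg (φ.comp (ci (hP.ov.le t))) ?_) hi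
      exact Subtype.ext (if_pos hni).symm
    obtain ⟨v0, hv0⟩ := hN.ln (π t) κ (φ.comp (ci (hP.ov.le t))) ⟨i0, hni, hxi⟩
    obtain ⟨v, hv1, hv2, hv3⟩ := hP.lf t κ φ v0
    refine ⟨v, ?_⟩
    intro h00
    apply hv0
    refine Eq.trans ?_ h00
    unfold om
    have e1 : v.D.D ⟨algebraMap L N (h0 (π t)), hhA t⟩ = v0.D.D ⟨h0 (π t), hN.hA (π t)⟩ :=
      hv1 _ (hN.hA (π t))
    have e2 : ∑ o : Option I, (((o.elim 0 c : ℤ)) : κ) * v.e o =
        ∑ i0, (n0 i0 : κ) * v0.e i0 := by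
      rw [Fintype.sum_option]
      simp only [Option.elim_none, Option.elim_some, Int.cast_zero, zero_mul, zero_add]
      rw [sum_c p Θ n0 c μ hP.ce (fun i => v.e (some i))]
      exact Finset.sum_congr rfl fun i0 _ => by rw [hv2 i0]
    exact (congrArg₂ (· + ·) e1 (congrArg₂ (· * ·)
      (show φ ⟨algebraMap L N (h0 (π t)), hhA t⟩ =
        (φ.comp (ci (hP.ov.le t))) ⟨h0 (π t), hN.hA (π t)⟩ from rfl) e2)).symm
  · -- vt
    intro t κ _ _ φ
    rcases hP.vt t κ φ with h | ⟨D, h1, h2, h3⟩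
    · exact Or.inl h
    · exact Or.inr ⟨D, h1, h2, h3 _ (hN.hA (π t))⟩
  · -- vl
    intro t κ _ _ φ
    have hcK : CharP κ p := charP_of_injective_algebraMap (algebraMap k κ).injective p
    obtain ⟨v, h1, h2, h3⟩ := hP.vl t κ φ
    refine ⟨v, h1 _ (hN.hA (π t)), ?_, h3⟩
    rw [sum_c p Θ n0 c μ hP.ce (fun i => v.e (some i))]
    refine Finset.sum_eq_zero fun i0 _ => ?_
    rw [h2 i0, mul_zero]

end Pool.Agent.W33.WT.Pas
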